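import Pool.Agent.L7h71.UN.Stm

set_option autoImplicit false

/-!
# Project UN, part STEP
-/

namespace Pool.Agent.L7h42.UN

open Set Filter Function Pool.Agent.L7h71.UN

section

variable {r : ℕ} {K V J : Type}

open Classical in
/-- `x` on `C` and `y` outside `C`. -/
noncomputable def mx (C : Set J) (x y : J → V) : J → V := fun j => if j ∈ C then x j else y j

theorem mx_pos {C : Set J} {x y : J → V} {j : J} (h : j ∈ C) : mx C x y j = x j := by
  simp [mx, h]

theorem mx_neg {C : Set J} {x y : J → V} {j : J} (h : j ∉ C) : mx C x y j = y j := by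
  simp [mx, h]

theorem sub_congr {z : Fin r → V ⊕ J} {x y : J → V} (h : ∀ i j, z i = Sum.inr j → x j = y j) :
    sub z x = sub z y := by
  funext i
  unfold sub
  rcases hz : z i with a | j
  · rfl
  · exact h i j hz

variable [Finite K]

/-- the key lemma: limits are realised by generic tuples -/
theorem key [Nonempty V] [Finite J] {M : St r K V} {F₀ F : Finset V} (hR : Rich M F₀)
    (hF : F₀ ⊆ F) {P : Ultrafilter (J → V)} (hP : Free P) (C : Set J) (z : Fin r → V ⊕ J)
    (hz : ∀ i a, z i = Sum.inl a → a ∈ F) :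
    ∃ z' : Fin r → V ⊕ J, (∀ i a, z' i = Sum.inl a → a ∈ F) ∧
      (∀ i j, z' i = Sum.inr j → z i = Sum.inr j ∧ j ∉ C) ∧
      ∀ y : J → V, (∀ j, y j ∉ F) →
        lim P (fun x => M (sub z (mx C x y))) = M (sub z' y) := by
  classical
  -- the variables in `C` which occur in `z`
  let Cz : Set J := {j | j ∈ C ∧ ∃ i, z i = Sum.inr j}
  have : Fintype Cz := Fintype.ofFinite _
  have hcard : Fintype.card Cz ≤ r := by
    have : Fintype.card Cz ≤ Fintype.card (Fin r) := by
      refine Fintype.card_le_of_injective (fun c : Cz => c.2.2.choose) ?_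
      intro c d hcd
      have h1 := c.2.2.choose_spec
      have h2 := d.2.2.choose_spec
      simp only at hcd
      rw [hcd, h2] at h1
      exact Subtype.ext (Sum.inr_injective h1).symm
    simpa using this
  let e : Fin (Fintype.card Cz) ≃ Cz := (Fintype.equivFin Cz).symm
  have hfree : Free (P.map fun w => w ∘ fun k => ((e k : Cz) : J)) :=
    hP.map (φ := fun k => ((e k : Cz) : J)) (Subtype.val_injective.comp e.injective)
  obtain ⟨b, hb1, hb2, hb3⟩ := hR _ hcard _ hfree
  -- a tuple without parameters of `z`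
  obtain ⟨a, ha⟩ : ∃ a : Fin (r + 1), ∀ i k, z i ≠ Sum.inl (b a k) := by
    by_contra hcon
    push Not at hcon
    choose i k hik using hcon
    have hinj : Injective i := by
      intro a a' h
      have h1 := hik a
      rw [h, hik a'] at h1
      exact (hb2 _ _ _ _ (Sum.inl_injective h1)).1.symm
    have := Fintype.card_le_of_injective i hinj
    simp at this
  obtain ⟨v0⟩ := (inferInstance : Nonempty V)
  let β : J → V := fun j => if h : j ∈ Cz then b a (e.symm ⟨j, h⟩) else v0
  have hβ : ∀ j (h : j ∈ Cz), β j = b a (e.symm ⟨j, h⟩) := fun j h => dif_pos h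
  refine ⟨fun i => match z i with
    | Sum.inl a => Sum.inl a
    | Sum.inr j => if j ∈ C then Sum.inl (β j) else Sum.inr j, ?_, ?_, ?_⟩
  · intro i c hc
    rcases hzi : z i with a' | j
    · simp only [hzi] at hc
      exact hz i c (by rw [hzi, hc])
    · simp only [hzi] at hc
      by_cases hj : j ∈ C
      · rw [if_pos hj] at hc
        rw [← Sum.inl_injective hc, hβ j ⟨hj, i, hzi⟩]
        exact hF (hb1 _ _)
      · rw [if_neg hj] at hc
        exact absurd hc (by simp)
  · intro i j hj
    rcases hzi : z i with a' | j'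
    · simp [hzi] at hj
    · simp only [hzi] at hj
      by_cases hj' : j' ∈ C
      · rw [if_pos hj'] at hj
        exact absurd hj (by simp)
      · rw [if_neg hj'] at hj
        obtain rfl := Sum.inr_injective hj
        exact ⟨rfl, hj'⟩
  · intro y hy
    let z2 : Fin r → V ⊕ Fin (Fintype.card Cz) := fun i => match z i with
      | Sum.inl a => Sum.inl a
      | Sum.inr j => if h : j ∈ Cz then Sum.inr (e.symm ⟨j, h⟩) else Sum.inl (y j)
    have hz2 : ∀ i k, z2 i ≠ Sum.inl (b a k) := by
      intro i k hk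
      rcases hzi : z i with a' | j
      · simp only [z2, hzi] at hk
        exact ha i k (by rw [hzi, Sum.inl_injective hk])
      · simp only [z2, hzi] at hk
        by_cases hj : j ∈ Cz
        · rw [dif_pos hj] at hk
          exact absurd hk (by simp)
        · rw [dif_neg hj] at hk
          exact hy j (by rw [Sum.inl_injective hk]; exact hF (hb1 _ _))
    have h1 := (hb3 a).2 z2 hz2
    rw [lim_map] at h1
    have h2 : ∀ x : J → V, sub z2 (x ∘ fun k => ((e k : Cz) : J)) = sub z (mx C x y) := by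
      intro x
      funext i
      rcases hzi : z i with a' | j
      · simp [sub, z2, hzi]
      · by_cases hj : j ∈ C
        · have hj' : j ∈ Cz := ⟨hj, i, hzi⟩
          simp [sub, z2, hzi, hj', mx_pos hj]
        · have hj' : j ∉ Cz := fun h => hj h.1
          simp [sub, z2, hzi, hj', mx_neg hj]
    have h3 : sub z2 (b a) = sub (fun i => match z i with
        | Sum.inl a => Sum.inl a
        | Sum.inr j => if j ∈ C then Sum.inl (β j) else Sum.inr j) y := by
      funext i
      rcases hzi : z i with a' | j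
      · simp [sub, z2, hzi]
      · by_cases hj : j ∈ C
        · have hj' : j ∈ Cz := ⟨hj, i, hzi⟩
          simp [sub, z2, hzi, hj', hj, hβ j hj']
        · have hj' : j ∉ Cz := fun h => hj h.1
          simp [sub, z2, hzi, hj', hj]
    rw [h3] at h1
    rw [h1]
    refine lim_congr (Eventually.of_forall fun x => ?_)
    rw [h2]

/-- three limits -/
theorem three (hS : S_SYM) (hC : ∀ n, Comm r K n) [Countable V] [Infinite V] [Countable J]
    {M : St r K V} (hM : ¬ Many M) {P : Ultrafilter (J → V)} (hP : Free P) (A B : Set J)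
    (z : Fin r → V ⊕ J) :
    lim P (fun w => lim P fun w' => lim P fun w'' => M (sub z (mx A w (mx B w'' w')))) =
    lim P (fun w' => lim P fun w'' => lim P fun w => M (sub z (mx A w (mx B w'' w')))) := by
  classical
  let z3 : Fin r → V ⊕ (Σ _ : Fin 3, J) := fun i => match z i with
      | Sum.inl a => Sum.inl a
      | Sum.inr j => Sum.inr ⟨if j ∈ A then 0 else if j ∈ B then 2 else 1, j⟩
  have h := (hS r K hC V M hM (Fin 3) (fun _ => J) (fun _ => P) fun _ => hP).1
    z3 [0, 1, 2] [1, 2, 0]
    (by decide) (by decide) (fun _ _ => Classical.arbitrary V)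
  have key : ∀ x : Fin 3 → J → V, M (subs z3 x) =
      M (sub z (mx A (x 0) (mx B (x 2) (x 1)))) := by
    intro x
    congr 1
    funext i
    rcases hzi : z i with a | j
    · simp [subs, sub, hzi, z3]
    · by_cases hA : j ∈ A
      · simp [subs, sub, hzi, hA, mx, z3]
      · by_cases hB : j ∈ B
        · simp [subs, sub, hzi, hA, hB, mx, z3]
        · simp [subs, sub, hzi, hA, hB, mx, z3]
  simp only [itl] at h
  simp only [key] at h
  simpa [Function.update] using h

/-- two limits -/
theorem two (hS : S_SYM) (hC : ∀ n, Comm r K n) [Countable V] [Infinite V] [Countable J]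
    {M : St r K V} (hM : ¬ Many M) {P : Ultrafilter (J → V)} (hP : Free P) (A : Set J)
    (z : Fin r → V ⊕ J) :
    lim P (fun w => lim P fun w' => M (sub z (mx A w w'))) =
    lim P (fun w' => lim P fun w => M (sub z (mx A w w'))) := by
  classical
  let z3 : Fin r → V ⊕ (Σ _ : Fin 2, J) := fun i => match z i with
      | Sum.inl a => Sum.inl a
      | Sum.inr j => Sum.inr ⟨if j ∈ A then 0 else 1, j⟩
  have h := (hS r K hC V M hM (Fin 2) (fun _ => J) (fun _ => P) fun _ => hP).1
    z3 [0, 1] [1, 0]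
    (by decide) (by decide) (fun _ _ => Classical.arbitrary V)
  have key : ∀ x : Fin 2 → J → V, M (subs z3 x) =
      M (sub z (mx A (x 0) (x 1))) := by
    intro x
    congr 1
    funext i
    rcases hzi : z i with a | j
    · simp [subs, sub, hzi, z3]
    · by_cases hA : j ∈ A
      · simp [subs, sub, hzi, hA, mx, z3]
      · simp [subs, sub, hzi, hA, mx, z3]
  simp only [itl] at h
  simp only [key] at h
  simpa [Function.update] using h

theorem mx_compl (C : Set J) (x y : J → V) : mx C x y = mx Cᶜ y x := by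
  funext j
  by_cases h : j ∈ C
  · rw [mx_pos h, mx_neg (by simpa using h)]
  · rw [mx_neg h, mx_pos h]

end

theorem s_STEP (hS : S_SYM) : S_STEP := by
  intro r K _ hC V _ _ M hM F₀ F hR hF ι κ _ _ P hP hconn hsep
  classical
  let I1 : Set (ι ⊕ κ) := range Sum.inl
  have hI1 : ∀ i : ι, (Sum.inl i : ι ⊕ κ) ∈ I1 := fun i => mem_range_self i
  have hI1' : ∀ k : κ, (Sum.inr k : ι ⊕ κ) ∉ I1 := fun k => by simp [I1]
  let sep : Set κ → Prop := fun K' => ∃ z : Fin r → V ⊕ (ι ⊕ κ),
    (∀ i a, z i = Sum.inl a → a ∈ F) ∧ (∀ i k, z i = Sum.inr (Sum.inr k) → k ∈ K') ∧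
    lim P (fun w => M (sub z w)) ≠ lim P fun w => lim P fun w' => M (sub z (mx I1 w w'))
  have hmx : ∀ w w' : ι ⊕ κ → V, Sum.elim (w ∘ Sum.inl) (w' ∘ Sum.inr) = mx I1 w w' := by
    intro w w'
    funext j
    rcases j with i | k
    · rw [mx_pos (hI1 i)]; rfl
    · rw [mx_neg (hI1' k)]; rfl
  have h0 : sep univ := by
    obtain ⟨z, hz1, hz2⟩ := hsep
    refine ⟨z, hz1, fun _ _ _ => mem_univ _, ?_⟩
    simpa only [hmx] using hz2
  obtain ⟨K', hK', hmin⟩ :=
    (wellFounded_lt (α := Set κ)).has_min {K' | sep K'} ⟨univ, h0⟩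
  obtain ⟨z, hz1, hz2, hz3⟩ := hK'
  have hne : K'.Nonempty := by
    by_contra hcon
    rw [not_nonempty_iff_eq_empty] at hcon
    subst hcon
    apply hz3
    refine lim_congr (Eventually.of_forall fun w => ?_)
    have h1 : ∀ w', sub z (mx I1 w w') = sub z w := fun w' => sub_congr fun i j hij => by
      rcases j with j | k
      · exact mx_pos (hI1 j)
      · exact absurd (hz2 i k hij) (by simp)
    simp [h1]
  refine ⟨K', hne, ?_⟩
  let θ : ι ⊕ K' → ι ⊕ κ := fun j => Sum.map id (fun k : K' => (k : κ)) j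
  suffices hcn : Conn M (F : Set V) (P.map fun w j => w (θ j)) by
    convert hcn using 3
    funext j
    rcases j with j | j <;> rfl
  by_contra hcon
  simp only [Conn, not_forall] at hcon
  obtain ⟨I, hIa, hIb, hIc⟩ := hcon
  have hθ : Injective θ := by
    rintro (a | a) (b | b) h
    · simpa [θ] using h
    · simp [θ] at h
    · simp [θ] at h
    · have : (a : κ) = b := by simpa [θ] using h
      rw [Subtype.ext this]
  let C : Set (ι ⊕ κ) := θ '' I
  have hCmem : ∀ j, θ j ∈ C ↔ j ∈ I := fun j => hθ.mem_set_image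
  -- independence in terms of `P`
  have hstar : ∀ z : Fin r → V ⊕ (ι ⊕ κ), (∀ i a, z i = Sum.inl a → a ∈ F) →
      (∀ i k, z i = Sum.inr (Sum.inr k) → k ∈ K') →
      lim P (fun w => M (sub z w)) = lim P fun w => lim P fun w' => M (sub z (mx C w w')) := by
    intro z h1 h2
    have h3 : ∀ i, ∃ u : V ⊕ (ι ⊕ K'), Sum.map id θ u = z i := by
      intro i
      rcases hzi : z i with a | j | k
      · exact ⟨Sum.inl a, rfl⟩
      · exact ⟨Sum.inr (Sum.inl j), rfl⟩
      · exact ⟨Sum.inr (Sum.inr ⟨k, h2 i k hzi⟩), rfl⟩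
    choose z' hz' using h3
    by_contra hne
    refine hIc ⟨z', fun i a hi => h1 i a (by rw [← hz', hi]; rfl), ?_⟩
    simp only [lim_map]
    have h4 : ∀ w : ι ⊕ κ → V, sub z' (fun j => w (θ j)) = sub z w := by
      intro w
      funext i
      simp only [sub, ← hz']
      rcases z' i with a | j <;> rfl
    have h5 : ∀ w w' : ι ⊕ κ → V, sub z' (fun j => if j ∈ I then w (θ j) else w' (θ j)) =
        sub z (mx C w w') := by
      intro w w'
      rw [← h4]
      congr 1
      funext j
      by_cases hj : j ∈ I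
      · rw [if_pos hj, mx_pos ((hCmem j).2 hj)]
      · rw [if_neg hj, mx_neg fun h => hj ((hCmem j).1 h)]
    intro h6
    apply hne
    have h7 : lim P (fun w => M (sub z w)) = lim P fun w => M (sub z' fun j => w (θ j)) :=
      lim_congr (Eventually.of_forall fun w => by
        change M (sub z w) = M (sub z' fun j => w (θ j)); rw [h4])
    have h8 : lim P (fun w => lim P fun w' => M (sub z (mx C w w'))) = lim P fun w =>
        lim P fun w' => M (sub z' fun j => if j ∈ I then w (θ j) else w' (θ j)) :=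
      lim_congr (Eventually.of_forall fun w => lim_congr (Eventually.of_forall fun w' => by
        change M (sub z (mx C w w')) = M (sub z' fun j => if j ∈ I then w (θ j) else w' (θ j))
        rw [h5]))
    rw [h7, h8]
    exact h6
  -- the trace of `C` on `ι` is trivial
  have htriv : (∀ i : ι, (Sum.inl i : ι ⊕ κ) ∉ C) ∨ ∀ i : ι, (Sum.inl i : ι ⊕ κ) ∈ C := by
    by_contra hcon
    push Not at hcon
    obtain ⟨⟨i1, hi1⟩, i2, hi2⟩ := hcon
    obtain ⟨z0, hz01, hz02⟩ := hconn {i | Sum.inl i ∈ C} ⟨i1, hi1⟩ ⟨i2, hi2⟩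
    apply hz02
    simp only [lim_map]
    have h1 := hstar (fun i => Sum.map id Sum.inl (z0 i)) (fun i a hi => by
      rcases hz0i : z0 i with a' | j
      · rw [hz0i] at hi
        exact hz01 i a (by rw [hz0i]; simpa using hi)
      · rw [hz0i] at hi
        simp at hi) (fun i k hi => by
      rcases hz0i : z0 i with a' | j
      · rw [hz0i] at hi
        simp at hi
      · rw [hz0i] at hi
        simp at hi)
    have h4 : ∀ w : ι ⊕ κ → V, sub (fun i => Sum.map id Sum.inl (z0 i)) w =
        sub z0 (w ∘ Sum.inl) := by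
      intro w
      funext i
      simp only [sub]
      rcases z0 i with a | j <;> rfl
    simp only [h4] at h1
    rw [h1]
    refine lim_congr (Eventually.of_forall fun w => lim_congr (Eventually.of_forall fun w' => ?_))
    congr 2
  obtain ⟨D, hD1, ⟨k0, hk0, hk0'⟩, hD3⟩ : ∃ D : Set (ι ⊕ κ), (∀ i : ι, Sum.inl i ∈ D) ∧
      (∃ k ∈ K', Sum.inr k ∉ D) ∧
      ∀ z : Fin r → V ⊕ (ι ⊕ κ), (∀ i a, z i = Sum.inl a → a ∈ F) →
      (∀ i k, z i = Sum.inr (Sum.inr k) → k ∈ K') →
      lim P (fun w => M (sub z w)) = lim P fun w => lim P fun w' => M (sub z (mx D w w')) := by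
    rcases htriv with h | h
    · refine ⟨Cᶜ, h, ?_, ?_⟩
      · obtain ⟨j, hj⟩ := hIa
        rcases j with j | k
        · exact absurd ((hCmem _).2 hj) (h j)
        · exact ⟨k, k.2, fun hk => hk ((hCmem _).2 hj)⟩
      · intro z h1 h2
        rw [hstar z h1 h2, two hS hC hM hP C z]
        refine lim_congr (Eventually.of_forall fun w => lim_congr (Eventually.of_forall fun w' => ?_))
        change M (sub z (mx C w' w)) = M (sub z (mx Cᶜ w w'))
        rw [mx_compl C]
    · refine ⟨C, h, ?_, hstar⟩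
      obtain ⟨j, hj⟩ := hIb
      rcases j with j | k
      · exact absurd ((hCmem (Sum.inl j)).1 (h j)) hj
      · exact ⟨k, k.2, fun hk => hj ((hCmem (Sum.inr k)).1 hk)⟩
  -- almost all tuples avoid `F`
  have hav : ∀ᶠ w : ι ⊕ κ → V in P, ∀ j, w j ∉ F := by
    have := hP.avoid (F := (F : Set V)) F.finite_toSet
    simpa using this
  have hmxav : ∀ (C : Set (ι ⊕ κ)) (w w' : ι ⊕ κ → V), (∀ j, w j ∉ F) → (∀ j, w' j ∉ F) →
      ∀ j, mx C w w' j ∉ F := by
    intro C w w' h1 h2 j
    by_cases hj : j ∈ C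
    · rw [mx_pos hj]; exact h1 j
    · rw [mx_neg hj]; exact h2 j
  obtain ⟨z1, hz1a, hz1b, hz1c⟩ := key hR hF hP Dᶜ z hz1
  obtain ⟨z2, hz2a, hz2b, hz2c⟩ := key hR hF hP I1 z hz1
  -- left side
  have hA : {k | k ∈ K' ∧ (Sum.inr k : ι ⊕ κ) ∈ D} < K' := by
    refine ⟨fun k hk => hk.1, fun h => hk0' (h hk0).2⟩
  have hnsep := fun h => hmin {k | k ∈ K' ∧ (Sum.inr k : ι ⊕ κ) ∈ D} h hA
  have e2 : lim P (fun w => M (sub z1 w)) =
      lim P fun w => lim P fun w' => M (sub z1 (mx I1 w w')) := by
    by_contra hne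
    refine hnsep ⟨z1, hz1a, fun i k hik => ?_, hne⟩
    have h1 := hz1b i _ hik
    exact ⟨hz2 i k h1.1, by simpa using h1.2⟩
  have eL : lim P (fun w => M (sub z w)) =
      lim P fun w => lim P fun w' => lim P fun w'' => M (sub z (mx I1 w (mx Dᶜ w'' w'))) := by
    rw [hD3 z hz1 hz2]
    have h1 : lim P (fun w => lim P fun w' => M (sub z (mx D w w'))) =
        lim P fun w => M (sub z1 w) := by
      refine lim_congr (hav.mono fun w hw => ?_)
      rw [← hz1c w hw]
      refine lim_congr (Eventually.of_forall fun w' => ?_)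
      change M (sub z (mx D w w')) = M (sub z (mx Dᶜ w' w))
      rw [mx_compl D]
    rw [h1, e2]
    refine lim_congr (hav.mono fun w hw => lim_congr (hav.mono fun w' hw' => ?_))
    rw [← hz1c _ (hmxav I1 w w' hw hw')]
    refine lim_congr (Eventually.of_forall fun w'' => ?_)
    change M (sub z (mx Dᶜ w'' (mx I1 w w'))) = M (sub z (mx I1 w (mx Dᶜ w'' w')))
    congr 2
    funext j
    rcases j with i | k
    · rw [mx_neg (by simpa using hD1 i), mx_pos (hI1 i), mx_pos (hI1 i)]
    · rw [mx_neg (x := w) (hI1' k)]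
      by_cases hk : (Sum.inr k : ι ⊕ κ) ∈ Dᶜ
      · rw [mx_pos hk, mx_pos hk]
      · rw [mx_neg hk, mx_neg hk, mx_neg (hI1' k)]
  have eR : lim P (fun w => lim P fun w' => M (sub z (mx I1 w w'))) =
      lim P fun w' => lim P fun w'' => lim P fun w => M (sub z (mx I1 w (mx Dᶜ w'' w'))) := by
    rw [two hS hC hM hP I1 z]
    have h1 : lim P (fun w' => lim P fun w => M (sub z (mx I1 w w'))) =
        lim P fun w' => M (sub z2 w') := lim_congr (hav.mono fun w' hw' => hz2c w' hw')
    rw [h1, hD3 z2 hz2a fun i k hik => hz2 i k (hz2b i _ hik).1]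
    refine lim_congr (hav.mono fun w' hw' => lim_congr (hav.mono fun w'' hw'' => ?_))
    rw [← mx_compl D, hz2c _ (hmxav D w' w'' hw' hw'')]
  exact hz3 (by rw [eL, eR, three hS hC hM hP I1 Dᶜ z])

end Pool.Agent.L7h42.UN
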